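import Pool.Agent.Helper5.FRC.Defs

/-!
# Project FRC, packet EXTY

The solution of the smaller state gives one of the larger.
-/

set_option autoImplicit false

namespace Pool.Agent.Helper15.FRC.EXTY

open Finset Pool.Agent.Helper5.FRC

theorem t : Pool.Agent.Helper5.FRC.ExtyStmt := by
  intro V _ _ n A Z t p t' hA hT hZA hZ hZ4 hp hpn hT' hch hsol
  obtain ⟨P', Y', hY'A, hP', hY', hfix, hcard, hodd⟩ := hsol
  classical
  -- the predicate for the points of the chains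
  let Q : V → V → Prop := fun x v => t x ∈ Z ∧ (v = t x ∨ v = p (t x) ∨
    (t (p (t x)) ∈ Z ∧ (v = t (p (t x)) ∨ v = p (t (p (t x))))))
  let P : V → V := fun v => if v ∈ Z then p v else P' v
  have hPZ : ∀ v ∈ Z, P v = p v := fun v hv => if_pos hv
  have hPn : ∀ v, v ∉ Z → P v = P' v := fun v hv => if_neg hv
  let Y : Finset V := A.filter fun v => v ∈ Y' ∨ (v ∈ Z ∧ ∃ x ∈ Y', Q x v)
  have hYmem : ∀ v, v ∈ Y ↔ v ∈ A ∧ (v ∈ Y' ∨ (v ∈ Z ∧ ∃ x ∈ Y', Q x v)) := by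
    intro v
    simp only [Y, mem_filter]
  have hY'sub : ∀ v ∈ Y', v ∈ A ∧ v ∉ Z := fun v hv => by
    have := hY'A hv
    rw [mem_sdiff] at this
    exact this
  have hinY' : ∀ v ∈ Y', v ∈ Y := fun v hv => (hYmem v).2 ⟨(hY'sub v hv).1, Or.inl hv⟩
  have hinQ : ∀ x ∈ Y', ∀ v ∈ Z, Q x v → v ∈ Y := fun x hx v hv hq =>
    (hYmem v).2 ⟨hZA hv, Or.inr ⟨hv, x, hx, hq⟩⟩
  have hAZ : ∀ x ∈ Y', x ∈ A \ Z := fun x hx => hY'A hx
  -- closedness of `Y`
  have hYt : ∀ v ∈ Y, t v ∈ Y := by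
    intro v hv
    rcases ((hYmem v).1 hv).2 with hv' | ⟨hvZ, x, hx, hxZ, hq⟩
    · by_cases htv : t v ∈ Z
      · exact hinQ v hv' (t v) htv ⟨htv, Or.inl rfl⟩
      · rcases hch v (hAZ v hv') with ⟨_, h⟩ | ⟨h, _⟩ | ⟨h, _⟩
        · rw [← h]
          exact hinY' _ (hY' v hv').1
        · exact absurd h htv
        · exact absurd h htv
    · have hxA := (hY'sub x hx).1
      rcases hq with h | h | ⟨h1, h | h⟩
      · rw [h, (hT x hxA).2.1]
        exact hinY' x hx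
      · rw [h]
        by_cases h2 : t (p (t x)) ∈ Z
        · exact hinQ x hx _ h2 ⟨hxZ, Or.inr (Or.inr ⟨h2, Or.inl rfl⟩)⟩
        · rcases hch x (hAZ x hx) with ⟨h3, _⟩ | ⟨_, _, h3⟩ | ⟨_, h3, _⟩
          · exact absurd hxZ h3
          · rw [← h3]
            exact hinY' _ (hY' x hx).1
          · exact absurd h3 h2
      · have h4 := (hp (t x) hxZ).1
        rw [h, (hT _ (hZA h4)).2.1]
        exact hinQ x hx _ h4 ⟨hxZ, Or.inr (Or.inl rfl)⟩
      · rw [h]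
        rcases hch x (hAZ x hx) with ⟨h3, _⟩ | ⟨_, h3, _⟩ | ⟨_, _, h3⟩
        · exact absurd hxZ h3
        · exact absurd h1 h3
        · rw [← h3]
          exact hinY' _ (hY' x hx).1
  have hYP : ∀ v ∈ Y, P v ∈ Y := by
    intro v hv
    rcases ((hYmem v).1 hv).2 with hv' | ⟨hvZ, x, hx, hxZ, hq⟩
    · rw [hPn v (hY'sub v hv').2]
      exact hinY' _ (hY' v hv').2
    · rw [hPZ v hvZ]
      have hpvZ := (hp v hvZ).1
      rcases hq with h | h | ⟨h1, h | h⟩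
      · exact hinQ x hx _ hpvZ ⟨hxZ, Or.inr (Or.inl (by rw [h]))⟩
      · refine hinQ x hx _ hpvZ ⟨hxZ, Or.inl ?_⟩
        rw [h, (hp _ hxZ).2.1]
      · exact hinQ x hx _ hpvZ ⟨hxZ, Or.inr (Or.inr ⟨h1, Or.inr (by rw [h])⟩)⟩
      · refine hinQ x hx _ hpvZ ⟨hxZ, Or.inr (Or.inr ⟨h1, Or.inl ?_⟩)⟩
        rw [h, (hp _ h1).2.1]
  refine ⟨P, Y, fun v hv => ((hYmem v).1 hv).1, ?_, fun v hv => ⟨hYt v hv, hYP v hv⟩, ?_, ?_, ?_⟩
  · intro v hv
    by_cases hvZ : v ∈ Z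
    · rw [hPZ v hvZ, hPZ _ (hp v hvZ).1]
      exact ⟨hZA (hp v hvZ).1, (hp v hvZ).2.1, Or.inr (hpn v hvZ)⟩
    · have h := hP' v (mem_sdiff.2 ⟨hv, hvZ⟩)
      rw [hPn v hvZ, hPn _ (mem_sdiff.1 h.1).2]
      exact ⟨(mem_sdiff.1 h.1).1, h.2⟩
  · intro v hv hPv
    have hvZ : v ∉ Z := fun hvZ => (hp v hvZ).2.2 (by rw [← hPZ v hvZ]; exact hPv)
    rw [hPn v hvZ] at hPv
    have h := hfix v (mem_sdiff.2 ⟨hv, hvZ⟩) hPv
    refine ⟨hinY' v h.1, ?_⟩
    by_cases hnZ : n v ∈ Z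
    · rw [hPZ _ hnZ]
      exact (hp _ hnZ).2.2
    · rw [hPn _ hnZ]
      exact h.2
  · have heq : (A.filter fun v => P v = v) = ((A \ Z).filter fun v => P' v = v) := by
      ext v
      simp only [mem_filter, mem_sdiff]
      constructor
      · rintro ⟨hv, hPv⟩
        have hvZ : v ∉ Z := fun hvZ => (hp v hvZ).2.2 (by rw [← hPZ v hvZ]; exact hPv)
        rw [hPn v hvZ] at hPv
        exact ⟨⟨hv, hvZ⟩, hPv⟩
      · rintro ⟨⟨hv, hvZ⟩, hPv⟩
        rw [hPn v hvZ]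
        exact ⟨hv, hPv⟩
    rw [heq]
    exact hcard
  · intro S hSA hS hSodd
    by_contra hcon
    push Not at hcon
    -- `S ∩ Z` is empty or all of `Z`
    have hSZ : (∃ z ∈ Z, z ∈ S) → Z ⊆ S := by
      rintro ⟨z, hz, hzS⟩
      have h := hZ.2.2 (Z ∩ S) inter_subset_left ⟨z, mem_inter.2 ⟨hz, hzS⟩⟩ (by
        intro x hx
        rw [mem_inter] at hx
        exact mem_inter.2 ⟨hZ.2.1 x hx.1, hS x hx.2⟩)
      intro x hx
      rw [← h] at hx
      exact (mem_inter.1 hx).2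
    have hinv : Inv n (S \ Z) := by
      intro x hx
      rw [mem_sdiff] at hx ⊢
      refine ⟨hS x hx.1, fun hnx => hx.2 ?_⟩
      have h := Equiv.Perm.perm_symm_on_of_perm_on_finset (f := n) (s := Z)
        (fun y hy => hZ.2.1 y hy) hnx
      simpa using h
    have hodd' : Odd (S \ Z).card := by
      by_cases h : ∃ z ∈ Z, z ∈ S
      · have h1 := hSZ h
        have h2 := card_sdiff_add_card_eq_card h1
        rw [← h2, hZ4] at hSodd
        rw [Nat.odd_iff] at hSodd ⊢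
        omega
      · push Not at h
        have h1 : S \ Z = S := by
          ext x
          rw [mem_sdiff]
          exact ⟨fun hx => hx.1, fun hx => ⟨hx, fun hxZ => h x hxZ hx⟩⟩
        rw [h1]
        exact hSodd
    obtain ⟨x, hx, hxY', htx⟩ := hodd (S \ Z) (sdiff_subset_sdiff hSA le_rfl) hinv hodd'
    rw [mem_sdiff] at hx
    have hxA : x ∈ A := hSA hx.1
    have hxAZ : x ∈ A \ Z := mem_sdiff.2 ⟨hxA, hx.2⟩
    have ht'A := (hT' x hxAZ).1
    have ht'S : t' x ∉ S := fun h => htx (mem_sdiff.2 ⟨h, (mem_sdiff.1 ht'A).2⟩)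
    have hxY : x ∉ Y := by
      rw [hYmem]
      rintro ⟨_, h | ⟨h, _⟩⟩
      · exact hxY' h
      · exact hx.2 h
    have h1 : t x ∈ S := hcon x hx.1 hxY
    have h1Y : t x ∉ Y := fun h => hxY (by
      have := hYt _ h
      rwa [(hT x hxA).2.1] at this)
    -- one passage through `Z`
    have step : ∀ z ∈ Z, z ∈ S → z ∉ Y → p z ∈ Z ∧ p z ∈ S ∧ p z ∉ Y ∧ t (p z) ∈ S ∧
        t (p z) ∉ Y := by
      intro z hz hzS hzY
      have hpz := (hp z hz).1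
      have hpS : p z ∈ S := hSZ ⟨z, hz, hzS⟩ hpz
      have hpY : p z ∉ Y := fun h => hzY (by
        have := hYP _ h
        rwa [hPZ _ hpz, (hp z hz).2.1] at this)
      refine ⟨hpz, hpS, hpY, hcon _ hpS hpY, fun h => hpY ?_⟩
      have := hYt _ h
      rwa [(hT _ (hZA hpz)).2.1] at this
    rcases hch x hxAZ with ⟨_, h⟩ | ⟨h2, _, h⟩ | ⟨h2, h3, h⟩
    · exact ht'S (by rw [h]; exact h1)
    · exact ht'S (by rw [h]; exact (step _ h2 h1 h1Y).2.2.2.1)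
    · obtain ⟨_, _, _, h4, h5⟩ := step _ h2 h1 h1Y
      exact ht'S (by rw [h]; exact (step _ h3 h4 h5).2.2.2.1)

end Pool.Agent.Helper15.FRC.EXTY
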